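import Pool.Agent.P8H67.TD.Stm

/-!
# TD/DUAL (helper45)
-/

set_option autoImplicit false

open Set

namespace Pool.Agent.P8H45.TD

open Pool.Agent.N520.SV (Sx Chain face bdry norm1 BCob)
open Pool.Agent.P8H67.TD

section
variable {Y : Type} [TopologicalSpace Y]

theorem bdry_single {k : ℕ} (σ : C(Sx (k + 1), Y)) (a : ℝ) :
    bdry k (Finsupp.single σ a) =
      a • ∑ i : Fin (k + 2), ((-1 : ℝ) ^ (i : ℕ)) • Finsupp.single (σ.comp (face i)) 1 := by
  rw [bdry, Finsupp.linearCombination_single]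

theorem bdry_single_one {k : ℕ} (σ : C(Sx (k + 1), Y)) :
    bdry k (Finsupp.single σ 1) =
      ∑ i : Fin (k + 2), ((-1 : ℝ) ^ (i : ℕ)) • Finsupp.single (σ.comp (face i)) 1 := by
  rw [bdry_single, one_smul]

/-- induction over the simplices -/
theorem chain_ext {k : ℕ} {V : Type} [AddCommGroup V] [Module ℝ V] {f g : Chain k Y →ₗ[ℝ] V}
    (h : ∀ σ, f (Finsupp.single σ 1) = g (Finsupp.single σ 1)) : f = g := by
  refine Finsupp.lhom_ext' fun σ => ?_
  refine LinearMap.ext_ring ?_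
  exact h σ

theorem dual : S_DUAL := by
  intro Y G _ _ _ _ j hG β hβ hβ2
  obtain ⟨B, hB⟩ : ∃ B : Chain (j + 1) Y →ₗ[ℝ] ℝ, B = Finsupp.linearCombination ℝ β := ⟨_, rfl⟩
  have hB1 : ∀ σ, B (Finsupp.single σ 1) = β σ := by
    intro σ
    rw [hB, Finsupp.linearCombination_single, one_smul]
  have hBK : ∀ c ∈ KK G (j + 1) (univ : Set Y), B c = 0 := by
    intro c hc
    refine (Submodule.span_le (p := LinearMap.ker B)).2 ?_ hc
    rintro _ ⟨g, σ, -, rfl⟩
    rw [SetLike.mem_coe, LinearMap.mem_ker, map_sub, hB1, hB1, hβ, sub_self]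
  have hBb : ∀ w : Chain (j + 2) Y, B (bdry (j + 1) w) = 0 := by
    intro w
    have h1 : B ∘ₗ bdry (j + 1) = 0 := by
      refine chain_ext fun τ => ?_
      rw [LinearMap.comp_apply, bdry_single_one, map_sum, LinearMap.zero_apply, ← hβ2 τ]
      refine Finset.sum_congr rfl fun i _ => ?_
      rw [map_smul, hB1, smul_eq_mul]
    exact LinearMap.congr_fun h1 w
  obtain ⟨L, hL⟩ : ∃ L : Chain (j + 1) Y →ₗ[ℝ] (Chain j Y ⧸ KK G j (univ : Set Y)),
    L = (KK G j (univ : Set Y)).mkQ ∘ₗ bdry j := ⟨_, rfl⟩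
  have hker : B ∈ (LinearMap.ker L).dualAnnihilator := by
    rw [Submodule.mem_dualAnnihilator]
    intro c hc
    rw [LinearMap.mem_ker, hL, LinearMap.comp_apply, Submodule.mkQ_apply,
      Submodule.Quotient.mk_eq_zero] at hc
    obtain ⟨w, -, hw⟩ := hG c (by
      rw [CC, Finsupp.mem_supported]
      exact fun σ _ => subset_univ _) hc
    have h1 := hBK _ hw
    rw [map_sub, hBb, sub_zero] at h1
    exact h1
  rw [← LinearMap.range_dualMap_eq_dualAnnihilator_ker] at hker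
  obtain ⟨f, hf⟩ := hker
  refine ⟨fun σ => f ((KK G j (univ : Set Y)).mkQ (Finsupp.single σ 1)), fun g σ => ?_, fun σ => ?_⟩
  · refine congrArg f ?_
    rw [← sub_eq_zero, ← map_sub, Submodule.mkQ_apply, Submodule.Quotient.mk_eq_zero]
    exact Submodule.subset_span ⟨g, σ, subset_univ _, rfl⟩
  · rw [← hB1, ← hf, LinearMap.dualMap_apply, hL, LinearMap.comp_apply, bdry_single_one, map_sum,
      map_sum]
    refine Finset.sum_congr rfl fun i _ => ?_
    rw [map_smul, map_smul, smul_eq_mul]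

end

end Pool.Agent.P8H45.TD
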