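import Pool.Agent.P8H45.TD.Dual

/-!
# TD/GMV (helper45)
-/

set_option autoImplicit false

open Set

namespace Pool.Agent.P8H45.TD

open Pool.Agent.N520.SV (Sx Chain face bdry norm1 BCob)
open Pool.Agent.P8H67.TD

section
variable {Y : Type} [TopologicalSpace Y]

theorem face_face {n : ℕ} (i : Fin (n + 3)) (j : Fin (n + 2)) :
    (face (i.succAbove j)).comp (face (j.predAbove i)) = (face i).comp (face j) := by
  ext x : 1
  change stdSimplex.map _ (stdSimplex.map _ x) = stdSimplex.map _ (stdSimplex.map _ x)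
  rw [stdSimplex.map_comp_apply, stdSimplex.map_comp_apply]
  congr 1
  funext k
  exact Fin.succAbove_succAbove_succAbove_predAbove i j k

theorem bdry_bdry {n : ℕ} (c : Chain (n + 2) Y) : bdry n (bdry (n + 1) c) = 0 := by
  have h : bdry n ∘ₗ bdry (n + 1) = (0 : Chain (n + 2) Y →ₗ[ℝ] Chain n Y) := by
    refine chain_ext fun τ => ?_
    rw [LinearMap.comp_apply, bdry_single_one, map_sum, LinearMap.zero_apply]
    have h1 : ∀ i : Fin (n + 3), bdry n (((-1 : ℝ) ^ (i : ℕ)) • Finsupp.single (τ.comp (face i)) 1) =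
        ∑ j : Fin (n + 2), ((-1 : ℝ) ^ ((i : ℕ) + (j : ℕ))) •
          Finsupp.single (τ.comp ((face i).comp (face j))) 1 := by
      intro i
      rw [map_smul, bdry_single_one, Finset.smul_sum]
      refine Finset.sum_congr rfl fun j _ => ?_
      rw [smul_smul, pow_add]
      rfl
    rw [Finset.sum_congr rfl fun i _ => h1 i, ← Finset.sum_product' (f := fun (i : Fin (n + 3))
      (j : Fin (n + 2)) => ((-1 : ℝ) ^ ((i : ℕ) + (j : ℕ))) •
          Finsupp.single (τ.comp ((face i).comp (face j))) (1 : ℝ))]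
    refine Finset.sum_involution (fun a _ => (a.1.succAbove a.2, a.2.predAbove a.1)) ?_ ?_ ?_ ?_
    · rintro ⟨i, j⟩ _
      change _ • _ + _ • _ = _
      rw [face_face, Fin.neg_one_pow_succAbove_add_predAbove, neg_smul, add_neg_cancel]
    · rintro ⟨i, j⟩ _ _ h
      exact Fin.succAbove_ne i j (congrArg Prod.fst h)
    · intro a _
      exact Finset.mem_univ _
    · rintro ⟨i, j⟩ _
      change (_, _) = (_, _)
      rw [Fin.succAbove_succAbove_predAbove, Fin.predAbove_predAbove_succAbove]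
  exact LinearMap.congr_fun h c

/-- the restriction of a chain to the simplices in `W` -/
noncomputable def res (k : ℕ) (W : Set Y) : Chain k Y →ₗ[ℝ] Chain k Y := by
  classical
  exact Finsupp.linearCombination ℝ fun σ => if range σ ⊆ W then Finsupp.single σ 1 else 0

theorem res_in {k : ℕ} {W : Set Y} {σ : C(Sx k, Y)} (h : range σ ⊆ W) :
    res k W (Finsupp.single σ 1) = Finsupp.single σ 1 := by
  rw [res, Finsupp.linearCombination_single, one_smul, if_pos h]

theorem res_out {k : ℕ} {W : Set Y} {σ : C(Sx k, Y)} (h : ¬ range σ ⊆ W) :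
    res k W (Finsupp.single σ 1) = 0 := by
  rw [res, Finsupp.linearCombination_single, one_smul, if_neg h]

theorem cc_eq (k : ℕ) (W : Set Y) : CC k W =
    Submodule.span ℝ ((fun σ => Finsupp.single σ (1 : ℝ)) '' {σ : C(Sx k, Y) | range σ ⊆ W}) :=
  Finsupp.supported_eq_span_single ℝ _

theorem cc_le {k : ℕ} {W : Set Y} {S : Submodule ℝ (Chain k Y)}
    (h : ∀ σ : C(Sx k, Y), range σ ⊆ W → Finsupp.single σ 1 ∈ S) : CC k W ≤ S := by
  rw [cc_eq, Submodule.span_le]
  rintro _ ⟨σ, hσ, rfl⟩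
  exact h σ hσ

theorem single_cc {k : ℕ} {W : Set Y} {σ : C(Sx k, Y)} (h : range σ ⊆ W) :
    Finsupp.single σ 1 ∈ CC k W := Finsupp.single_mem_supported ℝ 1 h

theorem cc_mono {k : ℕ} {V W : Set Y} (h : V ⊆ W) : CC k V ≤ CC k W :=
  cc_le fun _ hσ => single_cc (hσ.trans h)

theorem res_id {k : ℕ} {W : Set Y} {c : Chain k Y} (hc : c ∈ CC k W) : res k W c = c := by
  have h : CC k W ≤ LinearMap.eqLocus (res k W) LinearMap.id := cc_le fun σ hσ => by
    rw [LinearMap.mem_eqLocus, res_in hσ, LinearMap.id_apply]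
  exact h hc

theorem res_cc {k : ℕ} {V W : Set Y} {c : Chain k Y} (hc : c ∈ CC k V) :
    res k W c ∈ CC k (V ∩ W) := by
  have h : CC k V ≤ (CC k (V ∩ W)).comap (res k W) := cc_le fun σ hσ => by
    rw [Submodule.mem_comap]
    by_cases h1 : range σ ⊆ W
    · rw [res_in h1]
      exact single_cc (subset_inter hσ h1)
    · rw [res_out h1]
      exact Submodule.zero_mem _
  exact h hc

theorem cc_inter {k : ℕ} {V W : Set Y} {c : Chain k Y} (h1 : c ∈ CC k V) (h2 : c ∈ CC k W) :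
    c ∈ CC k (V ∩ W) := by
  rw [← res_id h2]
  exact res_cc h1

theorem bdry_cc {k : ℕ} {W : Set Y} {c : Chain (k + 1) Y} (hc : c ∈ CC (k + 1) W) :
    bdry k c ∈ CC k W := by
  have h : CC (k + 1) W ≤ (CC k W).comap (bdry k) := cc_le fun σ hσ => by
    rw [Submodule.mem_comap, bdry_single_one]
    refine Submodule.sum_mem _ fun i _ => Submodule.smul_mem _ _ (single_cc ?_)
    rintro _ ⟨x, rfl⟩
    exact hσ ⟨_, rfl⟩
  exact h hc

end

section
variable {G : Type} [Group G] {Y : Type} [TopologicalSpace Y] [MulAction G Y]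
  [ContinuousConstSMul G Y]

theorem gs_face {k : ℕ} (g : G) (σ : C(Sx (k + 1), Y)) (i : Fin (k + 2)) :
    (gs g σ).comp (face i) = gs g (σ.comp (face i)) := rfl

theorem gs_range {W : Set Y} (hW : GInv G W) {k : ℕ} (g : G) (σ : C(Sx k, Y)) :
    range (gs g σ) ⊆ W ↔ range σ ⊆ W := by
  constructor
  · rintro h _ ⟨x, rfl⟩
    have h1 := hW g⁻¹ _ (h ⟨x, rfl⟩)
    change g⁻¹ • g • σ x ∈ W at h1
    rwa [inv_smul_smul] at h1
  · rintro h _ ⟨x, rfl⟩
    exact hW g _ (h ⟨x, rfl⟩)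

theorem kk_mono {k : ℕ} {V W : Set Y} (h : V ⊆ W) : KK G k V ≤ KK G k W := by
  refine Submodule.span_mono ?_
  rintro _ ⟨g, σ, hσ, rfl⟩
  exact ⟨g, σ, hσ.trans h, rfl⟩

theorem kk_le {k : ℕ} {W : Set Y} {S : Submodule ℝ (Chain k Y)}
    (h : ∀ (g : G) (σ : C(Sx k, Y)), range σ ⊆ W →
      Finsupp.single (gs g σ) 1 - Finsupp.single σ 1 ∈ S) : KK G k W ≤ S := by
  rw [KK, Submodule.span_le]
  rintro _ ⟨g, σ, hσ, rfl⟩
  exact h g σ hσ

theorem kk_cc {W : Set Y} (hW : GInv G W) (k : ℕ) : KK G k W ≤ CC k W :=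
  kk_le fun g σ hσ => Submodule.sub_mem _ (single_cc ((gs_range hW g σ).2 hσ)) (single_cc hσ)

theorem bdry_kk {k : ℕ} {W : Set Y} {c : Chain (k + 1) Y} (hc : c ∈ KK G (k + 1) W) :
    bdry k c ∈ KK G k W := by
  have h : KK G (k + 1) W ≤ (KK G k W).comap (bdry k) := kk_le fun g σ hσ => by
    rw [Submodule.mem_comap, map_sub, bdry_single_one, bdry_single_one, ← Finset.sum_sub_distrib]
    refine Submodule.sum_mem _ fun i _ => ?_
    rw [← smul_sub, gs_face]
    refine Submodule.smul_mem _ _ (Submodule.subset_span ⟨g, _, ?_, rfl⟩)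
    rintro _ ⟨x, rfl⟩
    exact hσ ⟨_, rfl⟩
  exact h hc

/-- the restriction respects the differences -/
theorem res_kk {k : ℕ} {V W : Set Y} (hW : GInv G W) {c : Chain k Y} (hc : c ∈ KK G k V) :
    res k W c ∈ KK G k (V ∩ W) := by
  have h : KK G k V ≤ (KK G k (V ∩ W)).comap (res k W) := kk_le fun g σ hσ => by
    rw [Submodule.mem_comap, map_sub]
    by_cases h1 : range σ ⊆ W
    · rw [res_in h1, res_in ((gs_range hW g σ).2 h1)]
      exact Submodule.subset_span ⟨g, σ, subset_inter hσ h1, rfl⟩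
    · rw [res_out h1, res_out (fun h2 => h1 ((gs_range hW g σ).1 h2)), sub_zero]
      exact Submodule.zero_mem _
  exact h hc

theorem kk_inter {k : ℕ} {A B : Set Y} (hB : GInv G B) {c : Chain k Y} (h1 : c ∈ KK G k A)
    (h2 : c ∈ CC k B) : c ∈ KK G k (A ∩ B) := by
  rw [← res_id h2]
  exact res_kk hB h1

theorem kk_split {k : ℕ} {A B : Set Y} (hA : GInv G A) (hB : GInv G B) {c : Chain k Y}
    (h1 : c ∈ KK G k (A ∪ B)) (h2 : c ∈ CC k A ⊔ CC k B) : c ∈ KK G k A ⊔ KK G k B := by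
  have h3 : c - res k A c ∈ CC k B := by
    obtain ⟨a, ha, b, hb, rfl⟩ := Submodule.mem_sup.1 h2
    rw [map_add, res_id ha, show a + b - (a + res k A b) = b - res k A b by abel]
    exact Submodule.sub_mem _ hb (cc_mono inter_subset_left (res_cc hb))
  have h4 : res k A c ∈ KK G k A := kk_mono inter_subset_right (res_kk hA h1)
  have h5 : c - res k A c ∈ KK G k B := by
    rw [← res_id h3]
    refine kk_mono inter_subset_right (res_kk hB (Submodule.sub_mem _ h1 ?_))
    exact kk_mono subset_union_left h4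
  rw [show c = res k A c + (c - res k A c) by abel]
  exact Submodule.add_mem_sup h4 h5

theorem ginv_union {A B : Set Y} (hA : GInv G A) (hB : GInv G B) : GInv G (A ∪ B) := by
  rintro g y (hy | hy)
  · exact Or.inl (hA g y hy)
  · exact Or.inr (hB g y hy)

theorem gmv : S_GMV := by
  intro hsub Y G _ _ _ _ A B hAo hBo hA hB j hgA hgB hgAB c hc hbc
  obtain ⟨R, D, hR1, hR2, hD1, hD2⟩ := hsub Y G A B hAo hBo hA hB
  have e1 := hR1 (j + 1) c hc
  obtain ⟨a, ha, b, hb, hab⟩ := Submodule.mem_sup.1 (hR2 (j + 2) c hc)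
  have hd := hD1 (j + 2) c hc
  have hκ := hD2 (j + 1) (bdry (j + 1) c) hbc
  change a + b = R (j + 1 + 1) c at hab
  rw [← hab] at e1
  obtain ⟨d, hdd⟩ : ∃ d, d = D (j + 1 + 1) c := ⟨_, rfl⟩
  obtain ⟨κ, hκκ⟩ : ∃ κ, κ = D (j + 1) (bdry (j + 1) c) := ⟨_, rfl⟩
  rw [← hdd, ← hκκ] at e1
  change D (j + 1 + 1) c ∈ _ at hd
  rw [← hdd] at hd
  rw [← hκκ] at hκ
  have e2 : bdry (j + 1) a + bdry (j + 1) b = bdry (j + 1) c - bdry (j + 1) κ := by
    conv_rhs => rw [e1]
    rw [map_add, map_add, map_add, bdry_bdry]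
    abel
  have h3 : bdry (j + 1) a + bdry (j + 1) b ∈ KK G (j + 1) (A ∪ B) := by
    rw [e2]
    exact Submodule.sub_mem _ hbc (bdry_kk hκ)
  obtain ⟨kA, hkA, kB, hkB, hk⟩ := Submodule.mem_sup.1
    (kk_split hA hB h3 (Submodule.add_mem_sup (bdry_cc ha) (bdry_cc hb)))
  have h4 : bdry (j + 1) a - kA = kB - bdry (j + 1) b := by
    rw [sub_eq_sub_iff_add_eq_add, ← hk]
    exact add_comm kA kB
  have h5 : bdry (j + 1) a - kA ∈ CC (j + 1) (A ∩ B) := by
    refine cc_inter (Submodule.sub_mem _ (bdry_cc ha) (kk_cc hA _ hkA)) ?_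
    rw [h4]
    exact Submodule.sub_mem _ (kk_cc hB _ hkB) (bdry_cc hb)
  have h6 : bdry j (bdry (j + 1) a - kA) ∈ KK G j (A ∩ B) := by
    refine kk_inter hB ?_ (cc_mono inter_subset_right (bdry_cc h5))
    rw [map_sub, bdry_bdry, zero_sub]
    exact Submodule.neg_mem _ (bdry_kk hkA)
  obtain ⟨w, hw, hwk⟩ := hgAB _ h5 h6
  obtain ⟨wA, hwA, hwA2⟩ := hgA (a - w) (Submodule.sub_mem _ ha (cc_mono inter_subset_left hw)) (by
    rw [map_sub, show bdry (j + 1) a - bdry (j + 1) w =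
      kA + (bdry (j + 1) a - kA - bdry (j + 1) w) by abel]
    exact Submodule.add_mem _ hkA (kk_mono inter_subset_left hwk))
  obtain ⟨wB, hwB, hwB2⟩ := hgB (b + w) (Submodule.add_mem _ hb (cc_mono inter_subset_right hw)) (by
    rw [map_add, show bdry (j + 1) b + bdry (j + 1) w =
      kB - (kB - bdry (j + 1) b - bdry (j + 1) w) by abel, ← h4]
    exact Submodule.sub_mem _ hkB (kk_mono inter_subset_right hwk))
  refine ⟨wA + wB + d, Submodule.add_mem _ (Submodule.add_mem _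
    (cc_mono subset_union_left hwA) (cc_mono subset_union_right hwB)) hd, ?_⟩
  rw [map_add, map_add, show c - (bdry (j + 1 + 1) wA + bdry (j + 1 + 1) wB + bdry (j + 1 + 1) d) =
    (a - w - bdry (j + 1 + 1) wA) + (b + w - bdry (j + 1 + 1) wB) +
      (c - (a + b) - bdry (j + 1 + 1) d) by abel]
  refine Submodule.add_mem _ (Submodule.add_mem _ (kk_mono subset_union_left hwA2)
    (kk_mono subset_union_right hwB2)) ?_
  have h7 : c - (a + b) - bdry (j + 1 + 1) d = κ := by
    conv_lhs => rw [e1]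
    abel
  rw [h7]
  exact hκ

end

end Pool.Agent.P8H45.TD
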